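import Pool.Agent.Run7.h293.Art

/-! # The formula of Q1 for almost all terms of a linear recurrence of order two

For a squarefree integer `D ≡ 1 mod 4` let `δ(D) = (1 - μ(|D|) ∏_{q ∣ D} 1 / (q² - q - 1)) A`, where `A` is Artin's
constant, and let `δ(D) = A` for the other squarefree integers `D`. Write `P(n, x)` for the number of primes `p ≤ x`
modulo which `n` is a primitive root. Let `u_0, u_1, u_2, ...` be a linear recurrence of order two with integer terms,
`u_(k+2) = a u_(k+1) - b u_k`, nondegenerate (the quotient of the roots of `X² - a X + b` is not a root of unity) and not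
a geometric progression: the Fibonacci numbers, the Lucas numbers, the Mersenne numbers `2 ^ k - 1`, the numbers
`c₁ r ^ k + c₂ s ^ k`, the solutions of Pell's equation, and so on. For all but `K / (log X) ^ B` of the indices `k < K`,
for any given `B`, the term `n = u_k` satisfies `|P(n, x) - δ(n') π(x)| ≤ ε π(x)` for EVERY `x ≥ X` with `x ^ 5 ≤ K`,
where `n'` is the squarefree part of `n`. The bases `u_k` form a set with only `O(log N)` elements up to `N`.

Proof: the second moment over `k` of the number of primes. Let `T_p` be the rank of apparition of `p`, the order of the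
shift of the recurrence in the group `PGL₂(F_p)`. For nontrivial characters `χ` modulo `p` and `ρ` modulo `q` the sum of
`χ(u_k) ρ(u_k)` over a common period of length `L` is at most `L √(p q) / lcm(T_p, T_q)`: its absolute value is constant
on the orbit of the pair of initial vectors under scalars and the shift, and the mean square over all pairs of vectors
is computed exactly. All but `o(π(x))` of the primes `p ≤ x` satisfy `T_p > √x (log x) ^ C`: the smaller `T_p` are few
because `p` divides a nonzero Lucas number with a small index; the `T_p` near `√x` are few because `T_p ∣ p - 1` or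
`T_p ∣ p + 1`, and few shifted primes have a divisor in such a short interval (sieve, and mean values of multiplicative
functions). The terms with a small squarefree part are rare by the same argument for the quadratic character.

Library: helper730 (expansion in characters), helper771 (average of `φ(p - 1) / (p - 1)`), helper318 (passage to all `x`),
the sieve of project Erdos456, helper907 (mean values of multiplicative functions). -/

set_option autoImplicit false

namespace Pool.Agent.Results.MP_991e92_nt.BinaryRecurrences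

open Finset Run7.h293

/-- the number of primes `p ≤ x` modulo which `n` is a primitive root -/
noncomputable def P (n : ℤ) (x : ℕ) : ℕ :=
  ((range (x + 1)).filter (fun p : ℕ => p.Prime ∧ orderOf (n : ZMod p) = p - 1)).card

/-- Artin's constant -/
noncomputable def A : ℝ := ∏' p : Nat.Primes, (1 - 1 / (((p : ℕ) : ℝ) * (((p : ℕ) : ℝ) - 1)))

/-- the density of Q1 for integers with squarefree part `D`: it is
`(1 - μ(|D|) ∏_{q ∣ D} 1 / (q² - q - 1)) ∏_p (1 - 1 / (p (p - 1)))` if `D ≡ 1 mod 4`, and Artin's constant otherwise -/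
noncomputable def δ (D : ℤ) : ℝ :=
  if D % 4 = 1 then (1 - ((ArithmeticFunction.moebius D.natAbs : ℤ) : ℝ) *
      ∏ q ∈ D.natAbs.primeFactors, (1 / ((q : ℝ) ^ 2 - (q : ℝ) - 1))) * A
  else A

/-- For EVERY `x ≥ X` with `x ^ 5 ≤ K`, the number of primes `p ≤ x` modulo which `n = D s ^ 2`, `D` squarefree, is a
primitive root is `δ(D) π(x)` up to an error of at most `ε π(x)`. -/
def Regular (ε : ℝ) (X K : ℕ) (n : ℤ) : Prop :=
  ∀ x : ℕ, X ≤ x → x ^ 5 ≤ K → ∀ D s : ℤ, Squarefree D → n = D * s ^ 2 →
    |(P n x : ℝ) - δ D * (Nat.primeCounting x : ℝ)| ≤ ε * (Nat.primeCounting x : ℝ)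

lemma P_eq (n : ℤ) (x : ℕ) : P n x = Pool.Agent.H730R2.AA.cnt n x := by
  classical
  unfold P Pool.Agent.H730R2.AA.cnt
  congr!

/-- **Theorem.** Let `u_(k+2) = a u_(k+1) - b u_k` be a linear recurrence with integer terms, `b ≠ 0`,
`a ^ 2 ∉ {0, b, 2 b, 3 b, 4 b}` (that is, the quotient of the roots of `X² - a X + b` is not a root of unity) and
`u_1 ^ 2 - a u_0 u_1 + b u_0 ^ 2 ≠ 0` (that is, `u` is not a geometric progression). For all `B` and `ε > 0` there is `X₀`
such that for all `X ≥ X₀` and all `K`, all but `K / (log X) ^ B` of the `k < K` satisfy: for EVERY `x ≥ X` with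
`x ^ 5 ≤ K`, the number of primes `p ≤ x` modulo which `u_k` is a primitive root is `δ(D) π(x)` up to an error of at
most `ε π(x)`, where `D` is the squarefree part of `u_k`. -/
theorem result (a b : ℤ) (hb : b ≠ 0) (h0 : a ≠ 0) (h1 : a ^ 2 ≠ b) (h2 : a ^ 2 ≠ 2 * b) (h3 : a ^ 2 ≠ 3 * b)
    (h4 : a ^ 2 ≠ 4 * b) (u : ℕ → ℤ) (hu : ∀ k, u (k + 2) = a * u (k + 1) - b * u k)
    (hW : u 1 ^ 2 - a * u 0 * u 1 + b * u 0 ^ 2 ≠ 0) (B : ℕ) (ε : ℝ) (hε : 0 < ε) :
    ∃ X₀ : ℕ, ∀ X K : ℕ, X₀ ≤ X →
      (({k : ℕ | k < K ∧ ¬ Regular ε X K (u k)}.ncard : ℕ) : ℝ) ≤ K / Real.log X ^ B := by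
  classical
  have hND : ND0 a b := ⟨hb, h0, h1, h2, h3, h4⟩
  obtain ⟨C, X₁, hC, hX₁, H⟩ := artin_sf hND (u 0, u 1) hW (B + 1) ε hε
  have hlt : Filter.Tendsto (fun x : ℕ => Real.log (x : ℝ)) Filter.atTop Filter.atTop :=
    Real.tendsto_log_atTop.comp tendsto_natCast_atTop_atTop
  obtain ⟨X₂, hX₂⟩ := Filter.eventually_atTop.1 (hlt.eventually_ge_atTop C)
  refine ⟨X₁ + X₂, fun X K hX => ?_⟩
  have hX4 : 4 ≤ X := by omega
  have hlog := log_one_le hX4
  have hCl := hX₂ X (by omega)
  obtain ⟨E, hE⟩ : ∃ E : Finset ℕ, E = (range K).filter (fun k => ¬ Regular ε X K (u k)) := ⟨_, rfl⟩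
  have hset : {k : ℕ | k < K ∧ ¬ Regular ε X K (u k)} = (E : Set ℕ) := by
    ext k
    rw [hE]
    simp
  have hdens : ∀ D : ℤ, δ D = if D % 4 = 1 then Pool.Agent.H730R2.AA.dens D else
      Pool.Agent.H386R2.Artin.artinC := fun D => rfl
  rw [hset, Set.ncard_coe_finset]
  have h5 := H X K (by omega) E (by rw [hE]; exact filter_subset _ _) (by
    intro k hk
    rw [hE, mem_filter] at hk
    have h6 := hk.2
    unfold Regular at h6
    push Not at h6
    obtain ⟨x, hx1, hx2, D, s, hD, hs, hx3⟩ := h6
    refine ⟨x, hx1, hx2, D, s, hD, ?_, ?_⟩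
    · rw [← hs]
      exact (lv_unique a b u hu k).symm
    · rw [P_eq, hdens] at hx3
      rw [← lv_unique a b u hu k]
      exact hx3)
  refine h5.trans ?_
  have hL0 : 0 < Real.log X := by linarith
  have hK0 : (0 : ℝ) ≤ K := Nat.cast_nonneg _
  calc C * (K / Real.log X ^ (B + 1)) = (C / Real.log X) * (K / Real.log X ^ B) := by
        rw [pow_succ]
        field_simp
    _ ≤ 1 * (K / Real.log X ^ B) := by
        apply mul_le_mul_of_nonneg_right _ (by positivity)
        rw [div_le_one hL0]
        exact hCl
    _ = _ := one_mul _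

end Pool.Agent.Results.MP_991e92_nt.BinaryRecurrences
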