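import Pool.Agent.Run7.h293.EP6

/-! # The formula of Q1 for almost all values `F(c a ^ k)` of an exponential polynomial

For a squarefree integer `D ≡ 1 mod 4` let `δ(D) = (1 - μ(|D|) ∏_{q ∣ D} 1 / (q² - q - 1)) A`, where `A` is Artin's
constant, and let `δ(D) = A` for the other squarefree integers `D`. Write `P(n, x)` for the number of primes `p ≤ x`
modulo which `n` is a primitive root. Let `|a| ≥ 2`, and let `F` be a polynomial with integer coefficients, of any
degree, which has a simple complex zero `z ≠ 0` (for `F = X` the formula fails). The values `F(c a ^ k)`, for instance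
`8 ^ k + 5 * 2 ^ k - 1`, are the terms of a linear recurrence of any order. Let `M ≥ 1`. For all `B` and `ε > 0` and for all `X ≥ X₀`, uniformly in `K` and in all the integers `c ≠ 0` composed of
primes dividing `M`:

* for all but `K / (log X) ^ B` of the `k < K` the base `n = F(c a ^ k)` satisfies `|P(n, x) - δ(n') π(x)| ≤ ε π(x)` for
  EVERY `x ≥ X` with `x ^ 5 ≤ K`, where `n'` is the squarefree part of `n`;
* for every squarefree `D ≡ 1 mod 4`, `D ≠ 1`, the same holds for the bases `D F(c a ^ k) ^ 2`, all of them with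
  squarefree part `D`, and with the density `δ(D)`.

The bases with one `c` form a set with only `O(log N)` elements up to `N`; the uniformity in `c` gives the same for the
values `F(u)` at the `M`-units `u = c a ^ k`, for instance `F(2 ^ i 3 ^ j)` in boxes of pairs `(i, j)`.

Proof: the second moment over `k` of the number of primes. Let `T_p` be the order of `a` modulo `p`. By Weil's bound the
sum of `χ(F(c a ^ k))` over the `k` in a residue class modulo a divisor `g` of `T_p`, in one period, is at most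
`2 deg F √p`: the elements `a ^ (g j)` are the `s`-th powers modulo `p`, `s = (p - 1) g / T_p`, and `F(c X ^ s)` modulo `p`
has an irreducible factor of multiplicity one. So by the Chinese remainder theorem the sum of `χ(F(c a ^ k)) ρ(F(c a ^ k))`
over a common period modulo `p` and `q` is at most `4 (deg F) ^ 2 √(p q) gcd(T_p, T_q)`. All but `o(π(x))` of the primes
`p ≤ x` satisfy `T_p > √x (log x) ^ C`, and few pairs of primes have orders with a large common divisor. The values with a
small squarefree part are rare by the same argument for the quadratic character.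

Library: helper318 and helper435 (Weil's bound for polynomials with an irreducible factor of multiplicity one), helper730
(expansion in characters and main term with the correction factor), helper771 (average of `φ(p - 1) / (p - 1)`), the sieve
of project Erdos456, helper907 (mean values of multiplicative functions). -/

set_option autoImplicit false

namespace Pool.Agent.Results.MP_991e92_nt.ExponentialPolynomials

open Finset Run7.h293

/-- the number of primes `p ≤ x` modulo which `n` is a primitive root -/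
noncomputable def P (n : ℤ) (x : ℕ) : ℕ :=
  ((range (x + 1)).filter (fun p : ℕ => p.Prime ∧ orderOf (n : ZMod p) = p - 1)).card

/-- Artin's constant -/
noncomputable def A : ℝ := ∏' p : Nat.Primes, (1 - 1 / (((p : ℕ) : ℝ) * (((p : ℕ) : ℝ) - 1)))

/-- the density of Q1 for integers with squarefree part `D`: it is
`(1 - μ(|D|) ∏_{q ∣ D} 1 / (q² - q - 1)) ∏_p (1 - 1 / (p (p - 1)))` if `D ≡ 1 mod 4`, and Artin's constant otherwise -/
noncomputable def δ (D : ℤ) : ℝ :=
  if D % 4 = 1 then (1 - ((ArithmeticFunction.moebius D.natAbs : ℤ) : ℝ) *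
      ∏ q ∈ D.natAbs.primeFactors, (1 / ((q : ℝ) ^ 2 - (q : ℝ) - 1))) * A
  else A

/-- For EVERY `x ≥ X` with `x ^ 5 ≤ K`, the number of primes `p ≤ x` modulo which `n = D s ^ 2`, `D` squarefree, is a
primitive root is `δ(D) π(x)` up to an error of at most `ε π(x)`. -/
def Regular (ε : ℝ) (X K : ℕ) (n : ℤ) : Prop :=
  ∀ x : ℕ, X ≤ x → x ^ 5 ≤ K → ∀ D s : ℤ, Squarefree D → n = D * s ^ 2 →
    |(P n x : ℝ) - δ D * (Nat.primeCounting x : ℝ)| ≤ ε * (Nat.primeCounting x : ℝ)

lemma P_eq (n : ℤ) (x : ℕ) : P n x = Pool.Agent.H730R2.AA.cnt n x := by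
  classical
  unfold P Pool.Agent.H730R2.AA.cnt
  congr!

lemma fin_C (C : ℝ) (X₁ : ℕ) : ∃ X₀ : ℕ, X₁ ≤ X₀ ∧ 4 ≤ X₀ ∧ ∀ X : ℕ, X₀ ≤ X → ∀ (B : ℕ) (w : ℝ), 0 ≤ w →
    C * (w / Real.log X ^ (B + 1)) ≤ w / Real.log X ^ B := by
  have hlt : Filter.Tendsto (fun x : ℕ => Real.log (x : ℝ)) Filter.atTop Filter.atTop :=
    Real.tendsto_log_atTop.comp tendsto_natCast_atTop_atTop
  obtain ⟨X₂, hX₂⟩ := Filter.eventually_atTop.1 (hlt.eventually_ge_atTop C)
  refine ⟨X₁ + X₂ + 4, by omega, by omega, fun X hX B w hw => ?_⟩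
  have hlog := log_one_le (x := X) (by omega)
  have hCl := hX₂ X (by omega)
  have hL0 : 0 < Real.log X := by linarith
  calc C * (w / Real.log X ^ (B + 1)) = (C / Real.log X) * (w / Real.log X ^ B) := by
        rw [pow_succ]
        field_simp
    _ ≤ 1 * (w / Real.log X ^ B) := by
        apply mul_le_mul_of_nonneg_right _ (by positivity)
        rw [div_le_one hL0]
        exact hCl
    _ = _ := one_mul _

/-- **Theorem.** Let `|a| ≥ 2`, let `F` be a polynomial with integer coefficients that has a simple complex zero `z ≠ 0`,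
and let `M ≥ 1`, `B`, `ε > 0` be given.
(1) There is `X₀` such that for all `X ≥ X₀`, all `K` and all integers `c` whose prime factors divide `M`, all but
`K / (log X) ^ B` of the `k < K` satisfy: for EVERY `x ≥ X` with `x ^ 5 ≤ K`, the number of primes `p ≤ x` modulo which
`F(c a ^ k)` is a primitive root is `δ(D) π(x)` up to an error of at most `ε π(x)`, where `D` is the squarefree part of
`F(c a ^ k)`.
(2) Let `D ≡ 1 mod 4` be squarefree, `D ≠ 1`. There is `X₀` such that for all `X ≥ X₀`, `K` and `c` as before, the same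
holds for the bases `D F(c a ^ k) ^ 2`, with the density `δ(D)`. -/
theorem result (a : ℤ) (ha : 2 ≤ |a|) (F : Polynomial ℤ)
    (hF : ∃ z : ℂ, z ≠ 0 ∧ Polynomial.aeval z F = 0 ∧ Polynomial.aeval z (Polynomial.derivative F) ≠ 0)
    (M : ℕ) (hM : 1 ≤ M) (B : ℕ) (ε : ℝ) (hε : 0 < ε) :
    (∃ X₀ : ℕ, ∀ X K : ℕ, X₀ ≤ X → ∀ c : ℤ, (∀ p : ℕ, p.Prime → (p : ℤ) ∣ c → p ∣ M) →
      (({k : ℕ | k < K ∧ ¬ Regular ε X K (F.eval (c * a ^ k))}.ncard : ℕ) : ℝ) ≤ K / Real.log X ^ B) ∧
    ∀ D : ℤ, Squarefree D → D % 4 = 1 → D ≠ 1 →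
      ∃ X₀ : ℕ, ∀ X K : ℕ, X₀ ≤ X → ∀ c : ℤ, (∀ p : ℕ, p.Prime → (p : ℤ) ∣ c → p ∣ M) →
        (({k : ℕ | k < K ∧ ¬ ∀ x : ℕ, X ≤ x → x ^ 5 ≤ K →
          |(P (D * (F.eval (c * a ^ k)) ^ 2) x : ℝ) - δ D * (Nat.primeCounting x : ℝ)| ≤
            ε * (Nat.primeCounting x : ℝ)}.ncard : ℕ) : ℝ) ≤ K / Real.log X ^ B := by
  classical
  obtain ⟨z, hz, h0, h1⟩ := hF
  obtain ⟨M₀, hM₀, hone⟩ := EP.oneX_EP F z h0 h1 hz ha M (by omega)
  refine ⟨?_, fun D hD hD1 hD2 => ?_⟩
  · obtain ⟨C, X₁, hC, hX₁, H⟩ := fam_sf hone hM₀ (B + 1) ε hε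
    obtain ⟨X₀, hX₀, hX₀4, hfin⟩ := fin_C C X₁
    refine ⟨X₀, fun X K hX c hc => ?_⟩
    obtain ⟨E, hE⟩ : ∃ E : Finset ℕ, E = (range K).filter (fun k => ¬ Regular ε X K (F.eval (c * a ^ k))) :=
      ⟨_, rfl⟩
    have hset : {k : ℕ | k < K ∧ ¬ Regular ε X K (F.eval (c * a ^ k))} = (E : Set ℕ) := by
      rw [hE, coe_filter]
      ext k
      simp
    have hdens : ∀ D : ℤ, δ D = if D % 4 = 1 then Pool.Agent.H730R2.AA.dens D else
        Pool.Agent.H386R2.Artin.artinC := fun D => rfl
    rw [hset, Set.ncard_coe_finset]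
    refine le_trans ?_ (hfin X hX B _ (Nat.cast_nonneg _))
    have h2 := H K ℕ (range K) (fun k => F.eval (c * a ^ k)) (EP.EPF.mk K c hc) X (by omega) E
      (by rw [hE]; exact filter_subset _ _) (by
        intro k hk
        rw [hE, mem_filter] at hk
        have h6 := hk.2
        unfold Regular at h6
        push Not at h6
        obtain ⟨x, hx1, hx2, D, s, hD, hs, hx3⟩ := h6
        refine ⟨x, hx1, hx2, D, s, hD, hs, ?_⟩
        rw [P_eq, hdens] at hx3
        exact hx3)
    rw [card_range] at h2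
    exact h2
  · obtain ⟨C, X₁, hC, hX₁, H⟩ := fam_sq hone hM₀ D hD hD1 hD2 (B + 1) ε hε
    obtain ⟨X₀, hX₀, hX₀4, hfin⟩ := fin_C C X₁
    refine ⟨X₀, fun X K hX c hc => ?_⟩
    obtain ⟨E, hE⟩ : ∃ E : Finset ℕ, E = (range K).filter (fun k => ¬ ∀ x : ℕ, X ≤ x → x ^ 5 ≤ K →
          |(P (D * (F.eval (c * a ^ k)) ^ 2) x : ℝ) - δ D * (Nat.primeCounting x : ℝ)| ≤
            ε * (Nat.primeCounting x : ℝ)) := ⟨_, rfl⟩
    have hset : {k : ℕ | k < K ∧ ¬ ∀ x : ℕ, X ≤ x → x ^ 5 ≤ K →
          |(P (D * (F.eval (c * a ^ k)) ^ 2) x : ℝ) - δ D * (Nat.primeCounting x : ℝ)| ≤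
            ε * (Nat.primeCounting x : ℝ)} = (E : Set ℕ) := by
      rw [hE, coe_filter]
      ext k
      simp
    have hdens : δ D = Pool.Agent.H730R2.AA.dens D := by
      unfold δ
      rw [if_pos hD1]
      rfl
    rw [hset, Set.ncard_coe_finset]
    refine le_trans ?_ (hfin X hX B _ (Nat.cast_nonneg _))
    have h2 := H K ℕ (range K) (fun k => F.eval (c * a ^ k)) (EP.EPF.mk K c hc) X (by omega) E
      (by rw [hE]; exact filter_subset _ _) (by
        intro k hk
        rw [hE, mem_filter] at hk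
        have h6 := hk.2
        push Not at h6
        obtain ⟨x, hx1, hx2, hx3⟩ := h6
        refine ⟨x, hx1, hx2, ?_⟩
        rw [P_eq, hdens] at hx3
        exact hx3)
    rw [card_range] at h2
    exact h2

end Pool.Agent.Results.MP_991e92_nt.ExponentialPolynomials
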