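import Pool.Agent.Run7.h293.Few2
import Pool.Agent.Run7.h293.DigB

/-! # The formula of Q1 for almost all integers with exactly `r` nonzero digits, `r ≥ 2`

For a squarefree integer `D ≡ 1 mod 4` let `δ(D) = (1 - μ(|D|) ∏_{q ∣ D} 1 / (q² - q - 1)) A`, where `A` is Artin's
constant, and let `δ(D) = A` for the other squarefree integers `D`. Write `P(n, x)` for the number of primes `p ≤ x`
modulo which `n` is a primitive root. Let `|a| ≥ 2`, let `Δ` be a finite set of nonzero integers, and consider the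
integers `n = d_1 a ^ k_1 + ... + d_r a ^ k_r` with `0 ≤ k_1 < ... < k_r < K` and `d_i ∈ Δ`, where `2 ≤ r ≤ K / 2`: for
instance the integers `n < b ^ K` with exactly `r` nonzero digits in base `b`, the integers `2 ^ k_1 ± ... ± 2 ^ k_r`, and
so on. The number `r` may be fixed, say `r = 2`; then the integers form a set with only `O((log N) ^ r)` elements up to
`N`. (For `r = 1` the powers `b ^ k` show that the formula fails.) For all `B` and `ε > 0`, uniformly in `r`:

* all but a proportion of `1 / (log X) ^ B` of these `n` satisfy `|P(n, x) - δ(n') π(x)| ≤ ε π(x)` for EVERY `x ≥ X` with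
  `x ^ 5 ≤ K`, where `n'` is the squarefree part of `n`;
* for every squarefree `D ≡ 1 mod 4`, `D ≠ 1`, the same holds for the bases `D n ^ 2`, all of them with squarefree part
  `D`, and with the density `δ(D)`.

Proof: the second moment over the position `k` of one digit, all the other digits being fixed: `n = m + d a ^ k` is then
a linear recurrence of order two, and the sum of `χ(m + d a ^ k) ρ(m + d a ^ k)` over a common period of length `L`, for
nontrivial characters `χ` modulo `p` and `ρ` modulo `q`, is at most `L √(p q) / lcm(T_p, T_q)`, where `T_p` is the order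
of `a` modulo `p`, if `p q` is prime to `m`. All but `o(π(x))` of the primes `p ≤ x` satisfy `T_p > √x (log x) ^ C`, and
few of the `m` have many prime factors of this kind. Double counting of the pairs of an integer and one of its nonzero
digits.

Library: helper730 (expansion in characters and main term with the correction factor), helper771 (average of
`φ(p - 1) / (p - 1)`), helper318 (passage to all `x`), the sieve of project Erdos456, helper907 (mean values of
multiplicative functions). -/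

set_option autoImplicit false

namespace Pool.Agent.Results.MP_991e92_nt.FewDigits

open Finset Run7.h293

/-- the number of primes `p ≤ x` modulo which `n` is a primitive root -/
noncomputable def P (n : ℤ) (x : ℕ) : ℕ :=
  ((range (x + 1)).filter (fun p : ℕ => p.Prime ∧ orderOf (n : ZMod p) = p - 1)).card

/-- Artin's constant -/
noncomputable def A : ℝ := ∏' p : Nat.Primes, (1 - 1 / (((p : ℕ) : ℝ) * (((p : ℕ) : ℝ) - 1)))

/-- the density of Q1 for integers with squarefree part `D`: it is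
`(1 - μ(|D|) ∏_{q ∣ D} 1 / (q² - q - 1)) ∏_p (1 - 1 / (p (p - 1)))` if `D ≡ 1 mod 4`, and Artin's constant otherwise -/
noncomputable def δ (D : ℤ) : ℝ :=
  if D % 4 = 1 then (1 - ((ArithmeticFunction.moebius D.natAbs : ℤ) : ℝ) *
      ∏ q ∈ D.natAbs.primeFactors, (1 / ((q : ℝ) ^ 2 - (q : ℝ) - 1))) * A
  else A

/-- For EVERY `x ≥ X` with `x ^ 5 ≤ K`, the number of primes `p ≤ x` modulo which `n = D s ^ 2`, `D` squarefree, is a
primitive root is `δ(D) π(x)` up to an error of at most `ε π(x)`. -/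
def Regular (ε : ℝ) (X K : ℕ) (n : ℤ) : Prop :=
  ∀ x : ℕ, X ≤ x → x ^ 5 ≤ K → ∀ D s : ℤ, Squarefree D → n = D * s ^ 2 →
    |(P n x : ℝ) - δ D * (Nat.primeCounting x : ℝ)| ≤ ε * (Nat.primeCounting x : ℝ)

/-- the vectors of length `K` with entries in `Δ ∪ {0}`, exactly `r` of them nonzero -/
def V (Δ : Finset ℤ) (K r : ℕ) : Set (Fin K → ℤ) :=
  {c | (∀ i, c i = 0 ∨ c i ∈ Δ) ∧ {i | c i ≠ 0}.ncard = r}

/-- the integer with the digits `c` in base `a` -/
def val (a : ℤ) {K : ℕ} (c : Fin K → ℤ) : ℤ := ∑ i : Fin K, c i * a ^ (i : ℕ)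

lemma P_eq (n : ℤ) (x : ℕ) : P n x = Pool.Agent.H730R2.AA.cnt n x := by
  classical
  unfold P Pool.Agent.H730R2.AA.cnt
  congr!

lemma V_eq (Δ : Finset ℤ) (K r : ℕ) : V Δ K r = (Dg.VV Δ K r : Set (Fin K → ℤ)) := by
  classical
  ext c
  rw [mem_coe, Dg.mem_VV]
  unfold V
  rw [Set.mem_setOf_eq]
  have : {i | c i ≠ 0} = ((univ.filter (fun i => c i ≠ 0) : Finset (Fin K)) : Set (Fin K)) := by
    ext i
    simp
  rw [this, Set.ncard_coe_finset]

lemma fin_C (C : ℝ) (X₁ : ℕ) : ∃ X₀ : ℕ, X₁ ≤ X₀ ∧ 4 ≤ X₀ ∧ ∀ X : ℕ, X₀ ≤ X → ∀ (B : ℕ) (w : ℝ), 0 ≤ w →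
    C * (w / Real.log X ^ (B + 1)) ≤ w / Real.log X ^ B := by
  have hlt : Filter.Tendsto (fun x : ℕ => Real.log (x : ℝ)) Filter.atTop Filter.atTop :=
    Real.tendsto_log_atTop.comp tendsto_natCast_atTop_atTop
  obtain ⟨X₂, hX₂⟩ := Filter.eventually_atTop.1 (hlt.eventually_ge_atTop C)
  refine ⟨X₁ + X₂ + 4, by omega, by omega, fun X hX B w hw => ?_⟩
  have hlog := log_one_le (x := X) (by omega)
  have hCl := hX₂ X (by omega)
  have hL0 : 0 < Real.log X := by linarith
  calc C * (w / Real.log X ^ (B + 1)) = (C / Real.log X) * (w / Real.log X ^ B) := by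
        rw [pow_succ]
        field_simp
    _ ≤ 1 * (w / Real.log X ^ B) := by
        apply mul_le_mul_of_nonneg_right _ (by positivity)
        rw [div_le_one hL0]
        exact hCl
    _ = _ := one_mul _

/-- **Theorem.** Let `|a| ≥ 2`, let `Δ` be a nonempty finite set of nonzero integers and let `B`, `ε > 0` be given.
(1) There is `X₀` such that for all `X ≥ X₀`, all `r ≥ 2` and all `K ≥ 2 r`, all but a proportion of `1 / (log X) ^ B` of
the integers `n = ∑_{i < K} c_i a ^ i` with coefficients in `Δ ∪ {0}`, exactly `r` of them nonzero, satisfy: for EVERY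
`x ≥ X` with `x ^ 5 ≤ K`, the number of primes `p ≤ x` modulo which `n` is a primitive root is `δ(D) π(x)` up to an error
of at most `ε π(x)`, where `D` is the squarefree part of `n`.
(2) Let `D ≡ 1 mod 4` be squarefree, `D ≠ 1`. There is `X₀` such that for all `X ≥ X₀`, all `r ≥ 2` and all `K ≥ 2 r`, the
same holds for the bases `D n ^ 2`, with the density `δ(D)`.
(3) For `a = b ≥ 2` and `Δ = {1, ..., b - 1}` the integers in (1) are the integers below `b ^ K` with exactly `r` nonzero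
digits in base `b`, each of them given by one vector `c`. -/
theorem result :
    (∀ (a : ℤ), 2 ≤ |a| → ∀ Δ : Finset ℤ, Δ.Nonempty → (0 : ℤ) ∉ Δ → ∀ (B : ℕ) (ε : ℝ), 0 < ε →
      (∃ X₀ : ℕ, ∀ X K r : ℕ, X₀ ≤ X → 2 ≤ r → 2 * r ≤ K →
        ({c ∈ V Δ K r | ¬ Regular ε X K (val a c)}.ncard : ℝ) ≤ (V Δ K r).ncard / Real.log X ^ B) ∧
      ∀ D : ℤ, Squarefree D → D % 4 = 1 → D ≠ 1 → ∃ X₀ : ℕ, ∀ X K r : ℕ, X₀ ≤ X → 2 ≤ r → 2 * r ≤ K →
        ({c ∈ V Δ K r | ¬ ∀ x : ℕ, X ≤ x → x ^ 5 ≤ K →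
          |(P (D * val a c ^ 2) x : ℝ) - δ D * (Nat.primeCounting x : ℝ)| ≤ ε * (Nat.primeCounting x : ℝ)}.ncard : ℝ) ≤
            (V Δ K r).ncard / Real.log X ^ B) ∧
    (∀ b : ℕ, 2 ≤ b → ∀ K r : ℕ, Set.BijOn (fun c : Fin K → ℤ => val b c) (V (Icc 1 ((b : ℤ) - 1)) K r)
      {n : ℤ | ∃ m : ℕ, n = m ∧ m < b ^ K ∧ {i | i < K ∧ m / b ^ i % b ≠ 0}.ncard = r}) := by
  classical
  refine ⟨fun a ha Δ hΔ h0 B ε hε => ⟨?_, fun D hD hD1 hD2 => ?_⟩, fun b hb K r => ?_⟩
  · obtain ⟨C, X₁, hC, hX₁, H⟩ := fam_sf (oneX_FD ha hΔ h0) (Mda_ne ha h0) (B + 1) ε hε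
    obtain ⟨X₀, hX₀, hX₀4, hfin⟩ := fin_C C X₁
    refine ⟨X₀, fun X K r hX hr hK => ?_⟩
    obtain ⟨E, hE⟩ : ∃ E : Finset (Fin K → ℤ), E = (Dg.VV Δ K r).filter (fun c => ¬ Regular ε X K (val a c)) :=
      ⟨_, rfl⟩
    have hset : {c ∈ V Δ K r | ¬ Regular ε X K (val a c)} = (E : Set (Fin K → ℤ)) := by
      rw [V_eq, hE, coe_filter]
      rfl
    have hdens : ∀ D : ℤ, δ D = if D % 4 = 1 then Pool.Agent.H730R2.AA.dens D else
        Pool.Agent.H386R2.Artin.artinC := fun D => rfl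
    rw [hset, Set.ncard_coe_finset, V_eq, Set.ncard_coe_finset]
    refine le_trans ?_ (hfin X hX B _ (Nat.cast_nonneg _))
    refine H K (Fin K → ℤ) (Dg.VV Δ K r) (Dg.vl a) (FD.mk K r hr hK) X (by omega) E
      (by rw [hE]; exact filter_subset _ _) ?_
    intro c hc
    rw [hE, mem_filter] at hc
    have h6 := hc.2
    unfold Regular at h6
    push Not at h6
    obtain ⟨x, hx1, hx2, D, s, hD, hs, hx3⟩ := h6
    refine ⟨x, hx1, hx2, D, s, hD, hs, ?_⟩
    rw [P_eq, hdens] at hx3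
    exact hx3
  · obtain ⟨C, X₁, hC, hX₁, H⟩ := fam_sq (oneX_FD ha hΔ h0) (Mda_ne ha h0) D hD hD1 hD2 (B + 1) ε hε
    obtain ⟨X₀, hX₀, hX₀4, hfin⟩ := fin_C C X₁
    refine ⟨X₀, fun X K r hX hr hK => ?_⟩
    obtain ⟨E, hE⟩ : ∃ E : Finset (Fin K → ℤ), E = (Dg.VV Δ K r).filter (fun c => ¬ ∀ x : ℕ, X ≤ x → x ^ 5 ≤ K →
          |(P (D * val a c ^ 2) x : ℝ) - δ D * (Nat.primeCounting x : ℝ)| ≤ ε * (Nat.primeCounting x : ℝ)) :=
      ⟨_, rfl⟩
    have hset : {c ∈ V Δ K r | ¬ ∀ x : ℕ, X ≤ x → x ^ 5 ≤ K →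
          |(P (D * val a c ^ 2) x : ℝ) - δ D * (Nat.primeCounting x : ℝ)| ≤ ε * (Nat.primeCounting x : ℝ)} =
        (E : Set (Fin K → ℤ)) := by
      rw [V_eq, hE, coe_filter]
      rfl
    have hdens : δ D = Pool.Agent.H730R2.AA.dens D := by
      unfold δ
      rw [if_pos hD1]
      rfl
    rw [hset, Set.ncard_coe_finset, V_eq, Set.ncard_coe_finset]
    refine le_trans ?_ (hfin X hX B _ (Nat.cast_nonneg _))
    refine H K (Fin K → ℤ) (Dg.VV Δ K r) (Dg.vl a) (FD.mk K r hr hK) X (by omega) E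
      (by rw [hE]; exact filter_subset _ _) ?_
    intro c hc
    rw [hE, mem_filter] at hc
    have h6 := hc.2
    push Not at h6
    obtain ⟨x, hx1, hx2, hx3⟩ := h6
    refine ⟨x, hx1, hx2, ?_⟩
    rw [P_eq, hdens] at hx3
    exact hx3
  · have h := Dg.bij_digits b hb K r
    rw [V_eq]
    have hs : {n : ℤ | ∃ m : ℕ, n = m ∧ m < b ^ K ∧ {i | i < K ∧ m / b ^ i % b ≠ 0}.ncard = r} =
        {n : ℤ | ∃ m : ℕ, n = m ∧ m < b ^ K ∧ ((range K).filter (fun i => m / b ^ i % b ≠ 0)).card = r} := by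
      ext n
      rw [Set.mem_setOf_eq, Set.mem_setOf_eq]
      have e : ∀ m : ℕ, {i | i < K ∧ m / b ^ i % b ≠ 0}.ncard =
          ((range K).filter (fun i => m / b ^ i % b ≠ 0)).card := by
        intro m
        rw [← Set.ncard_coe_finset]
        congr 1
        ext i
        simp
      simp only [e]
    rw [hs]
    exact h

end Pool.Agent.Results.MP_991e92_nt.FewDigits
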