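import Pool.Agent.Run7.h166.SP.LimE

set_option autoImplicit false

/-! # Simultaneous primitive roots

All but few rational numbers, in the sense of four exceptional groups of rank at most three, are simultaneously
primitive roots modulo infinitely many primes, wherever this is not excluded by quadratic residues.  The primes lie in
prescribed residue classes to all moduli, or the quadratic residue symbols are prescribed.  The same for strings of
consecutive primes in intervals of bounded length, with more exceptional groups.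

Method: the groups of the `l`-th powers modulo `p`, `l ∣ p - 1`, for primes `p` for which `p - 1` has few prime factors
(linear sieve, theorem of Bombieri and Vinogradov; for strings the starting library `Pool.Agent.R498.MX`), converge along an
ultrafilter to groups of small rank. -/

namespace Pool.Agent.Results.MP_991e92_nt.SimultaneousRoots

open Finset

/-- `w` is a unit at `p`, and its residue class modulo `p` is a primitive root modulo `p` -/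
def Root (w : ℚ) (p : ℕ) : Prop :=
  ¬ (p : ℤ) ∣ w.num ∧ ¬ p ∣ w.den ∧ ∀ e : ℕ, 0 < e → e < p - 1 →
    ¬ ((w.num : ℤ) : ZMod p) ^ e = ((w.den : ℕ) : ZMod p) ^ e

/-- `w` is a square modulo `p` (for units `w` at `p`) -/
def Sq (w : ℚ) (p : ℕ) : Prop := IsSquare ((w.num * w.den : ℤ) : ZMod p)

/-- the rank of the group is less than `K`: any `K` elements are multiplicatively dependent -/
def RankLT (K : ℕ) (V : Subgroup ℚˣ) : Prop :=
  ∀ b : Fin K → ℚˣ, (∀ j, b j ∈ V) → ∃ e : Fin K → ℤ, ∏ j, b j ^ e j = 1 ∧ ∃ j, e j ≠ 0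

/-- a compatible system of residue classes `a m` prime to `m`, different from `1` modulo the odd primes -/
structure System (a : ℕ → ℕ) : Prop where
  coprime : ∀ m, 0 < m → (a m).Coprime m
  compatible : ∀ m n : ℕ, 0 < n → m ∣ n → a n ≡ a m [MOD m]
  ne_one : ∀ l : ℕ, l.Prime → l ≠ 2 → ¬ a l ≡ 1 [MOD l]

open Classical in
/-- one infinite set of primes for all `w` -/
theorem infinite_set {k : ℕ} (ε : ℚˣ →* ℤˣ) (V : Fin k → Subgroup ℚˣ)
    (h : ∀ F : Finset ℚˣ, (∀ w ∈ F, ∀ i, w ∉ V i) → ∃ κ : ℝ, 0 < κ ∧ ∀ A : ℕ, ∃ N ≥ A,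
        κ * (N / Real.log N ^ 2) ≤ #{p ∈ Icc 1 N | p.Prime ∧ ∀ w ∈ F, Root (w : ℚ) p ↔ ε w = -1}) :
    ∃ P : Set ℕ, P.Infinite ∧ (∀ p ∈ P, p.Prime) ∧
      ∀ w : ℚˣ, (∀ i, w ∉ V i) → {p ∈ P | ¬ (Root (w : ℚ) p ↔ ε w = -1)}.Finite := by
  have : Countable ℚˣ := Function.Injective.countable (f := fun w : ℚˣ => (w : ℚ)) Units.val_injective
  obtain ⟨g, hg⟩ := exists_surjective_nat ℚˣ
  have hex : ∀ n : ℕ, ∃ p : ℕ, n < p ∧ p.Prime ∧ ∀ k < n, (∀ i, g k ∉ V i) →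
      (Root ((g k : ℚˣ) : ℚ) p ↔ ε (g k) = -1) := by
    intro n
    obtain ⟨κ, hκ, h1⟩ := h (((range n).image g).filter (fun w => ∀ i, w ∉ V i)) (by
      intro w hw
      exact (mem_filter.1 hw).2)
    obtain ⟨A, hA⟩ := Filter.eventually_atTop.1
      (Pool.Agent.R498.MX.pow_log_small 1 ((n + 1) / κ) 2 one_pos (by positivity))
    obtain ⟨N, hN, h2⟩ := h1 (A + 3)
    have h3 := hA N (by omega)
    rw [Real.rpow_one] at h3
    have hNr : (3 : ℝ) ≤ N := by exact_mod_cast (show 3 ≤ N by omega)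
    have hL0 : 0 < Real.log N := Real.log_pos (by linarith)
    have h4 : ((n : ℝ) + 1) ≤ κ * (N / Real.log N ^ 2) := by
      calc ((n : ℝ) + 1) = κ * (((n + 1) / κ * Real.log N ^ 2) / Real.log N ^ 2) := by
            field_simp
        _ ≤ κ * (N / Real.log N ^ 2) := by gcongr
    by_contra hcon
    push Not at hcon
    have h5 : {p ∈ Icc 1 N | p.Prime ∧ ∀ w ∈ ((range n).image g).filter (fun w => ∀ i, w ∉ V i),
        Root (w : ℚ) p ↔ ε w = -1} ⊆ Icc 1 n := by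
      intro p hp
      rw [mem_filter, mem_Icc] at hp
      rw [mem_Icc]
      refine ⟨hp.1.1, ?_⟩
      by_contra hpn
      obtain ⟨k, hk, hkV, hk2⟩ := hcon p (by omega) hp.2.1
      rcases hk2 with ⟨h6, h7⟩ | ⟨h6, h7⟩
      · exact h7 ((hp.2.2 (g k) (mem_filter.2 ⟨mem_image.2 ⟨k, mem_range.2 hk, rfl⟩, hkV⟩)).1 h6)
      · exact h6 ((hp.2.2 (g k) (mem_filter.2 ⟨mem_image.2 ⟨k, mem_range.2 hk, rfl⟩, hkV⟩)).2 h7)
    have h6 := card_le_card h5
    rw [Nat.card_Icc] at h6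
    have h7 : (n : ℝ) + 1 ≤ ((n + 1 - 1 : ℕ) : ℝ) := (h4.trans h2).trans (by exact_mod_cast h6)
    rw [Nat.add_sub_cancel] at h7
    linarith
  choose p hp using hex
  refine ⟨Set.range p, ?_, ?_, ?_⟩
  · apply Set.infinite_of_not_bddAbove
    rintro ⟨b, hb⟩
    have h1 := hb ⟨b, rfl⟩
    have h2 := (hp b).1
    omega
  · rintro q ⟨n, rfl⟩
    exact (hp n).2.1
  · intro w hw
    obtain ⟨k, rfl⟩ := hg w
    apply Set.Finite.subset ((Set.finite_Iic k).image p)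
    rintro q ⟨⟨n, rfl⟩, hq⟩
    refine ⟨n, ?_, rfl⟩
    rw [Set.mem_Iic]
    by_contra hnk
    exact hq ((hp n).2.2 k (by omega) hw)

open Classical in
theorem result :
    -- (1) primes in given residue classes
    (∀ a : ℕ → ℕ, System a → ∃ V : Fin 4 → Subgroup ℚˣ, (∀ i, RankLT 4 (V i)) ∧
      ∀ F : Finset ℚˣ, (∀ w ∈ F, ∀ i, w ∉ V i) → ∀ m : ℕ, 0 < m → ∃ κ : ℝ, 0 < κ ∧ ∀ A : ℕ, ∃ N ≥ A,
        κ * (N / Real.log N ^ 2) ≤ #{p ∈ Icc 1 N | p.Prime ∧ p ≡ a m [MOD m] ∧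
          ∀ w ∈ F, Root (w : ℚ) p ↔ ¬ Sq (w : ℚ) p}) ∧
    -- (2) given quadratic residue symbols
    (∀ ε : ℚˣ →* ℤˣ, ε (Units.mk0 (-3) (by norm_num)) = -1 →
      ∃ V : Fin 4 → Subgroup ℚˣ, (∀ i, RankLT 4 (V i)) ∧
      (∃ P : Set ℕ, P.Infinite ∧ (∀ p ∈ P, p.Prime) ∧
        ∀ w : ℚˣ, (∀ i, w ∉ V i) → {p ∈ P | ¬ (Root (w : ℚ) p ↔ ε w = -1)}.Finite) ∧
      ∀ F : Finset ℚˣ, (∀ w ∈ F, ∀ i, w ∉ V i) → ∃ κ : ℝ, 0 < κ ∧ ∀ A : ℕ, ∃ N ≥ A,
        κ * (N / Real.log N ^ 2) ≤ #{p ∈ Icc 1 N | p.Prime ∧ ∀ w ∈ F, Root (w : ℚ) p ↔ ε w = -1}) ∧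
    -- (3) strings of consecutive primes
    (∀ r : ℕ, ∃ K M B : ℕ, ∀ a : ℕ → ℕ, System a → ∃ V : Fin M → Subgroup ℚˣ, (∀ i, RankLT K (V i)) ∧
      ∀ F : Finset ℚˣ, (∀ w ∈ F, ∀ i, w ∉ V i) → ∀ m : ℕ, 0 < m → ∃ S : ℕ, ∀ A : ℕ, ∃ N ≥ A,
        (N : ℝ) ≤ Real.log N ^ B * #{n ∈ Ioc N (2 * N) | r < #{p ∈ Icc n (n + S) | p.Prime} ∧
          ∀ p ∈ Icc n (n + S), p.Prime → p ≡ a m [MOD m] ∧ ∀ w ∈ F, Root (w : ℚ) p ↔ ¬ Sq (w : ℚ) p}) := by
  have hrank : ∀ (K : ℕ) (V : Subgroup ℚˣ), Pool.Agent.Run7.h166.SP.NoInd K (V : Set ℚˣ) → RankLT K V := by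
    intro K V h b hb
    have h1 := h b hb
    push Not at h1
    exact h1
  refine ⟨fun a ha => ?_, fun ε hε => ?_, fun r => ?_⟩
  · obtain ⟨V, hV, h⟩ := Pool.Agent.Run7.h166.SP.main1E a ha.coprime ha.compatible ha.ne_one
    refine ⟨V, fun i => hrank 4 (V i) (hV i), fun F hF m hm => ?_⟩
    obtain ⟨κ, hκ, h1⟩ := h F hF m hm
    refine ⟨κ, hκ, fun A => ?_⟩
    obtain ⟨N, hN, h2⟩ := h1 A
    refine ⟨N, hN, h2.trans ?_⟩
    norm_cast
    apply card_le_card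
    intro p hp
    rw [mem_filter] at hp ⊢
    exact ⟨hp.1, hp.2.1, hp.2.2.1, hp.2.2.2.2⟩
  · obtain ⟨V, hV, h⟩ := Pool.Agent.Run7.h166.SP.main2E ε hε
    refine ⟨V, fun i => hrank 4 (V i) (hV i), ?_, h⟩
    exact infinite_set ε V h
  · obtain ⟨K, M, B, -, h⟩ := Pool.Agent.Run7.h166.SP.main1 r
    refine ⟨K, M, B, fun a ha => ?_⟩
    obtain ⟨V, hV, h1⟩ := h a ha.coprime ha.compatible ha.ne_one
    exact ⟨V, fun i => hrank K (V i) (hV i), h1⟩

end Pool.Agent.Results.MP_991e92_nt.SimultaneousRoots
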